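import Mathlib
import Pool.Agent.Run7.h988.DG.New

/-!
# Deligne's conjecture for all Artin twists when the order of vanishing grows little

Let `M` be a motive over `ℚ` with coefficients in the number field `E`, of weight `w` and without
`(w/2, w/2)`-classes, and let `K/ℚ` be a Galois extension with group `G`. For an embedding `τ` of `E` and an
irreducible complex character `χ` of `G` let `L τ χ` be the L-function of `τM ⊗ χ` and `P τ χ` the period
`(2πi)^(m n^±) c^±` of this twist at the critical integer `c = m` (the same integers are critical for all
twists). For an Artin representation of `G` over a field `E' ⊇ E` the L-function and the period of the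
twist at an embedding of `E'` are the products of those of the irreducible constituents, and Deligne's
conjecture at `c`, with coefficients in `E'`, says that there is ONE element `e` of `E'` such that for all
embeddings the value is the conjugate of `e` times the period (`Holds`); in particular the value vanishes
at all embeddings or at none.

The values of the twists by monomial representations `Ind ψ` are those of the L-functions of `M` over the
subfields of `K`, twisted by characters of finite order. By Brauer's theorem all other twists are
QUOTIENTS of these, which gives nothing for vanishing values (`0/0`), and no information on the vanishing of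
the conjugates. Let the conjecture be known for the monomial twists, with coefficients in an extension
`E'` of `E` by roots of unity (for the motives of CM type this is the theorem of Blasius and of Harder
and Schappacher), and for all representations of `Gal(F/ℚ)`, for a smaller Galois extension `F`. The
theorem says that the conjecture follows for all representations of `Gal(K/ℚ)` if the order of vanishing
grows little from `F` to `K` at ONE embedding. `N`, `H` are the normal subgroups of the smaller fields.

1. **Small growth.** Let `K/F` be solvable and `ψ` a character of `Gal(K/F)`. Suppose that at one embedding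
the order of the L-function over `K` is smaller than the order of the L-function over `F` twisted by `ψ`
plus every prime divisor of `[K : F]`. If `F/ℚ` is nilpotent, for instance `F = ℚ`, or if the conjecture
holds for all representations of the Galois group of the largest abelian extension of `F` in `K`, then it
holds for all representations of `G` over `E`. (Here monomial characters of solvable subgroups suffice.)
2. **No new zeros.** Suppose that at one embedding all zeros over `K` come from `F`, twisted by a
character `λ` of `G`. (Here the monomial characters of hyperelementary or nilpotent subgroups suffice.)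
Then (a) at ALL embeddings of `E'` the L-functions of the irreducible characters not coming from `F ⊗ λ`
have neither a zero nor a pole at `c`, (b) the conjecture holds for all representations over `E` without
constituents coming from `F ⊗ λ`, and (c) if it holds for the representations coming from `F ⊗ λ`, with
coefficients in `E'`, then it holds for all representations over `E`.
3. **Zeros of abelian-by-nilpotent origin.** If at one embedding all zeros over `K` come from a Galois
extension of `ℚ` whose group has an abelian normal subgroup with nilpotent quotient, then the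
conjecture holds for all representations of `G` over `E`.

The theorems on small growth and on (c) over `E'` are those of the starting library `Pool/Agent/R389`
(whose theorems on this conjecture no result of the starting repository used). New here: (a), (b) (there only if all elements of
`Gal(F/ℚ)` have prime power order), 3, the case of nilpotent extensions in 1, and the descent of the
coefficients from `E'` to `E` (`Pool/Agent/Run7/h988/DG`).
-/

set_option autoImplicit false

open Filter Topology Pool.Agent.H541R3.ART

namespace Pool.Agent.Results.MP_100fe7_nt.GrowthOfOrders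

/-- The L-functions `L τ χ` of the twists `τM ⊗ χ` of a motive `M` with coefficients in `E` by the
irreducible complex characters `χ` of the group `G`, meromorphic and not identically zero near `c`, and
the periods `P τ χ ≠ 0` of these twists; `τ` runs through the embeddings of `E`. -/
structure Twists (E G : Type) [Field E] [Group G] (c : ℂ) where
  /-- the L-functions -/
  L : (E →+* ℂ) → (G → ℂ) → ℂ → ℂ
  /-- the periods -/
  P : (E →+* ℂ) → (G → ℂ) → ℂ
  /-- the L-functions are meromorphic and not identically zero near `c` -/
  mero : ∀ τ, ∀ χ ∈ Irr G, MeromorphicAt (L τ χ) c ∧ meromorphicOrderAt (L τ χ) c ≠ ⊤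
  /-- the periods are not zero -/
  ne : ∀ τ, ∀ χ ∈ Irr G, P τ χ ≠ 0

/-- `f` is the sum of `m χ` copies of `χ` over the irreducible complex characters `χ` of `G` -/
def IsSum {G : Type} [Group G] (f : G → ℂ) (m : (G → ℂ) → ℕ) : Prop :=
  ∀ g, f g = ∑ᶠ χ ∈ Irr G, (m χ : ℂ) * χ g

variable {E G : Type} [Field E] [Group G] {c : ℂ}

/-- **Deligne's conjecture** at `c` for the character `f` of `G` with values in `E' ⊇ E`: for one
`e ∈ E'`, at every embedding `τ` of `E'`, the value at `c` of the L-function of `f` at `τ` (the product of
the L-functions of the irreducible constituents of `τ ∘ f`) is `τ e` times the period of `f` at `τ`. -/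
def Holds (D : Twists E G c) (E' : Type) [Field E'] [Algebra E E'] (f : G → E') : Prop :=
  ∃ e : E', ∀ (τ : E' →+* ℂ) (m : (G → ℂ) → ℕ), IsSum (fun g => τ (f g)) m →
    Tendsto (fun s => ∏ᶠ χ ∈ Irr G, D.L (τ.comp (algebraMap E E')) χ s ^ m χ) (𝓝[≠] c)
      (𝓝 (τ e * ∏ᶠ χ ∈ Irr G, D.P (τ.comp (algebraMap E E')) χ ^ m χ))

/-- the order at `c` of the product of the L-functions of the characters `χ ∈ S`, each with the
exponent `m χ` -/
noncomputable def order (D : Twists E G c) (τ : E →+* ℂ) (S : Set (G → ℂ)) (m : (G → ℂ) → ℕ) :
    WithTop ℤ :=
  meromorphicOrderAt (fun s => ∏ᶠ χ ∈ S, D.L τ χ s ^ m χ) c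

open Classical in
/-- the function induced from a function on a subgroup: `(Ind f) g` is the sum of the values of `f` at
the conjugates `x⁻¹ g x ∈ H`, `x ∈ G`, divided by `|H|` -/
noncomputable def Ind {k : Type*} [Field k] (H : Subgroup G) (f : H → k) (g : G) : k :=
  (Nat.card H : k)⁻¹ * ∑ᶠ x : G, if h : x⁻¹ * g * x ∈ H then f ⟨x⁻¹ * g * x, h⟩ else 0

/-- Deligne's conjecture at `c` for the twists by the characters induced from the linear characters of
the subgroups of the class `C`, with coefficients in `E'` -/
def MonomialTwists (D : Twists E G c) (E' : Type) [Field E'] [Algebra E E']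
    (C : Subgroup G → Prop) : Prop :=
  ∀ (U : Subgroup G) (ψ : U →* E'ˣ), C U → Holds D E' (Ind U (fun u => ((ψ u : E'ˣ) : E')))

/-- the group is hyperelementary: for some prime `p` there is a normal cyclic subgroup of order prime
to `p` whose quotient is a `p`-group -/
def Hyperelementary (U : Type) [Group U] : Prop :=
  ∃ p : ℕ, p.Prime ∧ ∃ c : U, (orderOf c).Coprime p ∧
    (∀ u : U, u * c * u⁻¹ ∈ Subgroup.zpowers c) ∧ ∀ u : U, ∃ k : ℕ, u ^ (p ^ k) ∈ Subgroup.zpowers c

/-- the group has an abelian normal subgroup with nilpotent quotient -/
def AbelianByNilpotent (U : Type) [Group U] : Prop :=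
  ∃ (A : Subgroup U) (_ : A.Normal), (∀ a b : A, a * b = b * a) ∧ Group.IsNilpotent (U ⧸ A)

theorem result {E : Type} [Field E] {G : Type} [Group G] [Finite G] {c : ℂ} (D : Twists E G c)
    (E' : Type) [Field E'] [Algebra E E'] [Algebra.IsAlgebraic E E'] (ζ : E')
    (hζ : IsPrimitiveRoot ζ (Monoid.exponent G)) (τ : E' →+* ℂ)
    (deg : (G → ℂ) → ℕ) (hdeg : ∀ χ ∈ Irr G, χ 1 = deg χ) :
    (MonomialTwists D E' (fun U => Group.IsSolvable U) →
      ∀ (N : Subgroup G) [N.Normal] (ψ : N →* ℂˣ) (m : (G → ℂ) → ℕ), Group.IsSolvable N →
        IsSum (Ind N (fun x => ((ψ x : ℂˣ) : ℂ))) m →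
        (∀ p : ℕ, p.Prime → p ∣ Nat.card N →
          order D (τ.comp (algebraMap E E')) (Irr G) deg
            < order D (τ.comp (algebraMap E E')) (Irr G) m + p) →
        (Group.IsNilpotent (G ⧸ N) ∨
          ∀ (W : Type) [AddCommGroup W] [Module E' W] [FiniteDimensional E' W]
            (σ : Representation E' G W), (∀ k ∈ ⁅N, N⁆, ∀ w, σ k w = w) →
            Holds D E' σ.character) →
        ∀ (V : Type) [AddCommGroup V] [Module E V] [FiniteDimensional E V]
          (ρ : Representation E G V), Holds D E ρ.character) ∧
    (MonomialTwists D E' (fun U => Hyperelementary U ∨ Group.IsNilpotent U) →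
      ∀ (H : Subgroup G) [H.Normal] (lam : G →* E'ˣ),
        order D (τ.comp (algebraMap E E')) (Irr G) deg ≤
          order D (τ.comp (algebraMap E E'))
            {χ ∈ Irr G | ∀ k ∈ H, χ k = χ 1 * τ ((lam k : E'ˣ) : E')} deg →
        (∀ τ' : E' →+* ℂ, ∀ χ ∈ Irr G, (¬ ∀ k ∈ H, χ k = χ 1 * τ' ((lam k : E'ˣ) : E')) →
          meromorphicOrderAt (D.L (τ'.comp (algebraMap E E')) χ) c = 0) ∧
        (∀ (V : Type) [AddCommGroup V] [Module E V] [FiniteDimensional E V]
          (ρ : Representation E G V),
          ∑ᶠ k : H, algebraMap E E' (ρ.character k) * (((lam k)⁻¹ : E'ˣ) : E') = 0 →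
          Holds D E ρ.character) ∧
        ((∀ (W : Type) [AddCommGroup W] [Module E' W] [FiniteDimensional E' W]
            (σ : Representation E' G W), (∀ k ∈ H, ∀ w, σ k w = ((lam k : E'ˣ) : E') • w) →
            Holds D E' σ.character) →
          ∀ (V : Type) [AddCommGroup V] [Module E V] [FiniteDimensional E V]
            (ρ : Representation E G V), Holds D E ρ.character)) ∧
    (MonomialTwists D E' (fun _ => True) →
      ∀ (H : Subgroup G) [H.Normal], AbelianByNilpotent (G ⧸ H) →
        order D (τ.comp (algebraMap E E')) (Irr G) deg ≤
          order D (τ.comp (algebraMap E E')) {χ ∈ Irr G | ∀ k ∈ H, χ k = χ 1} deg →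
        ∀ (V : Type) [AddCommGroup V] [Module E V] [FiniteDimensional E V]
          (ρ : Representation E G V), Holds D E ρ.character) := by
  have key : ∀ {f : G → E}, Pool.Agent.R389.Deligne D.L D.P c f → Holds D E f := by
    intro f h
    rw [← Run7.h988.DG.up_self D.L, ← Run7.h988.DG.up_self D.P] at h
    exact h
  have hbase : ∀ (V : Type) [AddCommGroup V] [Module E V] [FiniteDimensional E V]
      (ρ : Representation E G V), (∀ (n : ℕ) (σ : Representation E' G (Fin n → E')),
        σ.character = (fun g => algebraMap E E' (ρ.character g)) →
        Holds D E' σ.character) → Holds D E ρ.character := by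
    intro V _ _ _ ρ h
    exact key (Run7.h988.DG.descend_rep (E' := E') (τ.comp (algebraMap E E')) D.ne ρ h)
  refine ⟨fun hmon N _ ψ m hN hm hz hold V _ _ _ ρ => hbase V ρ fun n σ _ => ?_,
    fun hmon H _ lam hz => ⟨?_, fun V _ _ _ ρ hρ => hbase V ρ fun n σ hσ => ?_,
      fun hold V _ _ _ ρ => hbase V ρ fun n σ _ => ?_⟩,
    fun hmon H _ hH hz V _ _ _ ρ => hbase V ρ fun n σ _ => ?_⟩
  · refine Pool.Agent.R389.main_small (L := Run7.h988.DG.up E' D.L)
      (P := Run7.h988.DG.up E' D.P) hζ (fun τ => D.mero _) (fun τ => D.ne _) hmon τ hdeg N hN ψ hm
      hz ?_ σ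
    intro W _ _ _ σ hσ
    rcases hold with hnil | hold
    · have hG : Group.IsSolvable G := by
        have h1 : Group.IsSolvable (G ⧸ N) := inferInstance
        exact Group.isSolvable_of_ker_le_range (N.subtype) (QuotientGroup.mk' N) (by simp)
      exact Run7.h988.DG.del_of_an (L := Run7.h988.DG.up E' D.L) (P := Run7.h988.DG.up E' D.P) hζ
        (fun τ => D.mero _) (fun τ => D.ne _) (fun U ψ => hmon U ψ inferInstance) τ
        (Run7.h988.DG.an_commutator hnil) σ hσ
    · exact hold W σ hσ
  · intro τ' χ hχ hnew
    exact Run7.h988.DG.new_all (L := Run7.h988.DG.up E' D.L) (P := Run7.h988.DG.up E' D.P) hζ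
      (fun τ => D.mero _) (fun τ => D.ne _) hmon τ hdeg H lam hz τ' hχ hnew
  · refine Run7.h988.DG.main_newT (L := Run7.h988.DG.up E' D.L) (P := Run7.h988.DG.up E' D.P) hζ
      (fun τ => D.mero _) (fun τ => D.ne _) hmon τ hdeg H lam hz σ ?_
    rw [hσ]
    exact hρ
  · exact Pool.Agent.R389.main_grow (L := Run7.h988.DG.up E' D.L) (P := Run7.h988.DG.up E' D.P) hζ
      (fun τ => D.mero _) (fun τ => D.ne _) hmon τ hdeg H lam hold hz σ
  · exact Run7.h988.DG.main_an (L := Run7.h988.DG.up E' D.L) (P := Run7.h988.DG.up E' D.P) hζ
      (fun τ => D.mero _) (fun τ => D.ne _) (fun U ψ => hmon U ψ trivial) τ hdeg H hH hz σ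

end Pool.Agent.Results.MP_100fe7_nt.GrowthOfOrders
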