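import Mathlib
import Pool.Agent.Run7.h453.CX.Euler
import Pool.Agent.Run7.h453.DE.Alg

/-!
# Deligne's conjecture with coefficients in `E`: convergent smoothed Euler products, and the
# rationality of `[E : ℚ]` limits

`M` is a motive over `ℚ` with coefficients in the number field `E`, of weight `w`; only the traces
`t(p, k) ∈ E` of the powers of Frobenius on the invariants of inertia are used. For the embedding
`τ : E → ℂ` let `L_τ(s) = ∏_p ∏_j (1 - α_j(p) p^(-s))⁻¹`, `τ(t(p, k)) = ∑_j α_j(p)^k`,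
`|α_j(p)| ≤ p^(w/2)`. Let `m` be an integer and suppose that `L_τ` is meromorphic in a neighbourhood of
the real segment `[m, w/2 + 1]` (nothing is assumed on its zeros and poles, or on a functional
equation). For `γ > π / 2` and `T > 0` let

  `S_τ(T) = ∑_(p, k) τ(t(p, k)) / (k p^(k m)) e^(i γ u) / Γ(1 + u)`,  `u = k log p / T`,

the smoothed logarithm of the Euler product at `s = m`, far outside of its region of convergence if `m`
is a critical integer. The same numbers `t(p, k) ∈ E` appear for all `τ`.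

* `S_τ(T) = - ρ (log T - Λ_γ) + r + O(1 / T)`, where `ρ` is the order of `L_τ` at `m` and `exp r` is the
  leading coefficient; `Λ_γ = ∫_0^∞ (e^(-t) - e^(i γ t) / Γ(1 + t)) dt / t`.
* For every `c ∈ ℂ`: `L_τ(s) → c` for `s → m` if and only if `exp S_τ(T) → c` for `T → ∞`, and if and only
  if this is true for one sequence `T_k → ∞` (for one nontrivial filter `l ≤ atTop`). So the smoothed
  Euler products converge to `L_τ(m)` whenever `L_τ` has no pole at `m`.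
* Let `c_τ ≠ 0` be the components of an element `c` of `(E ⊗ ℂ)ˣ` (for instance
  `(2 π i)^(m n^ε) c^ε(M)`). Deligne's relation `L(m, M) = e c` with `e ∈ E` is equivalent to
  `exp S_τ(T) → τ(e) c_τ` for all `τ` (for one sequence `T_k → ∞`); and there is such an `e ∈ E` if and
  only if, for one (any) basis `b_i` of `E` over `ℚ`, with the dual basis `b_i^*` for the trace form, the
  `[E : ℚ]` numbers

    `q_i = lim ∑_τ τ(b_i^*) exp (S_τ(T)) / c_τ`

  exist (for one sequence) and are rational. Then `e = ∑ q_i b_i`.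
-/

set_option autoImplicit false

namespace Pool.Agent.Results.MP_100fe7_nt.RationalLimits

open Filter Topology Set
open Pool.Agent.Run7.h453 (CX.lamE CX.cE CX.cEs CX.eterm)

variable {E : Type} [Field E]

/-- The weight `w`, a bound `N` for the rank, and the traces `t(p, k)` of the powers of Frobenius. -/
structure System (E : Type) [Field E] where
  /-- the weight -/
  w : ℤ
  /-- the rank -/
  N : ℕ
  /-- the trace of the `k`-th power of the Frobenius at `p` on the invariants of inertia -/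
  t : Nat.Primes → ℕ+ → E

/-- `α p j` are the eigenvalues of the Frobenius at `p` for the embedding `τ` (if there are less
than `N`, the others are `0`). -/
def IsEigen (M : System E) (τ : E →+* ℂ) (α : Nat.Primes → Fin M.N → ℂ) : Prop :=
  (∀ p j, ‖α p j‖ ≤ ((p : ℕ) : ℝ) ^ ((M.w : ℝ) / 2)) ∧
    ∀ p k, τ (M.t p k) = ∑ j, α p j ^ ((k : ℕ+) : ℕ)

/-- `L` is `L_τ(s, M)` for `Re s > w / 2 + 1`, and it is meromorphic near the real segment
`[m, w / 2 + 1]`. -/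
def IsLFunction (M : System E) (m : ℤ) (τ : E →+* ℂ) (L : ℂ → ℂ) : Prop :=
  (∃ α, IsEigen M τ α ∧ ∀ s : ℂ, (M.w : ℝ) / 2 + 1 < s.re →
    HasProd (fun p : Nat.Primes => ∏ j, (1 - α p j * ((p : ℕ) : ℂ) ^ (-s))⁻¹) (L s)) ∧
  ∀ x : ℝ, m ≤ x → x ≤ (M.w : ℝ) / 2 + 1 → MeromorphicAt L (x : ℂ)

/-- `τ(t(p, k)) / (k p^(k m)) e^(i γ u) / Γ(1 + u)`, `u = k log p / T`, for `x = (p, k)`. -/
noncomputable def term (M : System E) (m : ℤ) (τ : E →+* ℂ) (γ T : ℝ) (x : Nat.Primes × ℕ+) : ℂ :=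
  τ (M.t x.1 x.2) / ((x.2 : ℕ) * ((x.1 : ℕ) : ℂ) ^ (((x.2 : ℕ) : ℤ) * m)) *
    Complex.exp ((γ * ((x.2 : ℕ) * Real.log (x.1 : ℕ) / T) : ℝ) * Complex.I) *
    ((Real.Gamma (1 + (x.2 : ℕ) * Real.log (x.1 : ℕ) / T))⁻¹ : ℝ)

/-- `S_τ(T)` -/
noncomputable def S (M : System E) (m : ℤ) (τ : E →+* ℂ) (γ T : ℝ) : ℂ := ∑' x, term M m τ γ T x

/-- `Λ_γ = ∫_0^∞ (e^(-t) - e^(i γ t) / Γ(1 + t)) dt / t` -/
noncomputable def Lam (γ : ℝ) : ℂ := ∫ t in Ioi (0 : ℝ),
  (Complex.exp (-(t : ℂ)) - Complex.exp ((γ * t : ℝ) * Complex.I) * ((Real.Gamma (1 + t))⁻¹ : ℝ)) / t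

lemma term_eq (M : System E) (m : ℤ) (τ : E →+* ℂ) (γ T : ℝ) (x : Nat.Primes × ℕ+) :
    term M m τ γ T x = CX.eterm (fun p : Nat.Primes => ((p : ℕ) : ℝ)) (fun p k => τ (M.t p k))
      (m : ℝ) γ T x := by
  have hp : (0 : ℝ) < ((x.1 : ℕ) : ℝ) := by exact_mod_cast x.1.2.pos
  have hpc : ((x.1 : ℕ) : ℂ) ≠ 0 := by exact_mod_cast x.1.2.ne_zero
  have h1 : ((Real.exp (-((m : ℝ) * CX.lamE (fun p : Nat.Primes => ((p : ℕ) : ℝ)) x)) : ℝ) : ℂ) =
      (((x.1 : ℕ) : ℂ) ^ (((x.2 : ℕ) : ℤ) * m))⁻¹ := by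
    have hlam : CX.lamE (fun p : Nat.Primes => ((p : ℕ) : ℝ)) x =
        ((x.2 : ℕ) : ℝ) * Real.log ((x.1 : ℕ) : ℝ) := rfl
    have h2 : ((x.1 : ℕ) : ℂ) ^ (((x.2 : ℕ) : ℤ) * m) =
        Complex.exp (((((x.2 : ℕ) : ℤ) * m : ℤ) : ℂ) * Complex.log ((x.1 : ℕ) : ℂ)) := by
      rw [Complex.exp_int_mul, Complex.exp_log hpc]
    rw [hlam, Real.exp_neg, h2, ← Complex.natCast_log]
    push_cast
    congr 2
    ring
  unfold term CX.eterm
  unfold Run7.h453.CX.rterm CX.cEs CX.cE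
  rw [h1]
  show τ (M.t x.1 x.2) / ((x.2 : ℕ) * ((x.1 : ℕ) : ℂ) ^ (((x.2 : ℕ) : ℤ) * m)) *
    Complex.exp ((γ * ((x.2 : ℕ) * Real.log (x.1 : ℕ) / T) : ℝ) * Complex.I) *
    ((Real.Gamma (1 + (x.2 : ℕ) * Real.log (x.1 : ℕ) / T))⁻¹ : ℝ) =
    τ (M.t x.1 x.2) / (x.2 : ℕ) * (((x.1 : ℕ) : ℂ) ^ (((x.2 : ℕ) : ℤ) * m))⁻¹ *
    Complex.exp ((γ * ((x.2 : ℕ) * Real.log (x.1 : ℕ) / T) : ℝ) * Complex.I) *
    ((Real.Gamma (1 + (x.2 : ℕ) * Real.log (x.1 : ℕ) / T))⁻¹ : ℝ)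
  rw [div_mul_eq_div_div]
  ring

lemma primes_sum (σ : ℝ) (hσ : 1 < σ) :
    Summable fun p : Nat.Primes => (((p : ℕ) : ℝ)) ^ (-σ) := by
  have h1 : Summable fun n : ℕ => ((n : ℝ)) ^ (-σ) := Real.summable_nat_rpow.2 (by linarith)
  exact h1.comp_injective Nat.Primes.coe_nat_injective

lemma ed {M : System E} {τ : E →+* ℂ} {α : Nat.Primes → Fin M.N → ℂ} (h : IsEigen M τ α) :
    Run7.h453.CX.ED ((M.w : ℝ) / 2) M.N (fun p : Nat.Primes => ((p : ℕ) : ℝ))
      (fun p k => τ (M.t p k)) := by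
  have h1 := Run7.h453.CX.ed_of (N := M.N) (q := fun p : Nat.Primes => ((p : ℕ) : ℝ))
    (κ := (M.w : ℝ) / 2) (a := α) (fun p => by exact_mod_cast p.2.two_le) primes_sum h.1
  have h2 : (fun (p : Nat.Primes) (k : ℕ+) => τ (M.t p k)) =
      fun v (k : ℕ+) => ∑ j, α v j ^ (k : ℕ) := by
    funext p k
    exact h.2 p k
  rw [h2]
  exact h1

lemma exp_eq {M : System E} {τ : E →+* ℂ} {α : Nat.Primes → Fin M.N → ℂ} (h : IsEigen M τ α)
    {s z : ℂ} (hs : (M.w : ℝ) / 2 + 1 < s.re)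
    (hz : HasProd (fun p : Nat.Primes => ∏ j, (1 - α p j * ((p : ℕ) : ℂ) ^ (-s))⁻¹) z) :
    z = Complex.exp (Run7.h453.CX.cser (CX.lamE fun p : Nat.Primes => ((p : ℕ) : ℝ))
      (CX.cE fun p k => τ (M.t p k)) s) := by
  have h1 := Run7.h453.CX.hasProd_c (N := M.N) (q := fun p : Nat.Primes => ((p : ℕ) : ℝ))
    (κ := (M.w : ℝ) / 2) (a := α) (fun p => by exact_mod_cast p.2.two_le) primes_sum h.1
    (s := s) (by linarith)
  have h2 : (fun (p : Nat.Primes) (k : ℕ+) => τ (M.t p k)) =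
      fun v (k : ℕ+) => ∑ j, α v j ^ (k : ℕ) := by
    funext p k
    exact h.2 p k
  rw [h2]
  push_cast at h1
  exact hz.unique h1

/-- the law -/
lemma law {M : System E} {m : ℤ} {τ : E →+* ℂ} {L : ℂ → ℂ} (hL : IsLFunction M m τ L) {γ : ℝ}
    (hγ : Real.pi / 2 < γ) : ∃ (ρ : ℤ) (r : ℂ), meromorphicOrderAt L m = ρ ∧
      Complex.exp r = meromorphicTrailingCoeffAt L m ∧
      (fun T : ℝ => S M m τ γ T - (-ρ * (Real.log T - Lam γ) + r)) =O[atTop]
        (fun T : ℝ => 1 / T) ∧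
      Tendsto (fun T : ℝ => Complex.exp (S M m τ γ T) * (T : ℂ) ^ ρ) atTop
        (𝓝 (Complex.exp (ρ * Lam γ) * Complex.exp r)) := by
  obtain ⟨⟨α, h1, h2⟩, h3⟩ := hL
  obtain ⟨ρ, r, C, T₀, e1, e2, e3⟩ := (ed h1).law (F := L) (σ₀ := (m : ℝ))
    (fun x hx hx' => h3 x hx (by linarith)) (fun s hs => exp_eq h1 (by linarith) (h2 s (by linarith)))
    hγ
  have hmc : (((m : ℝ)) : ℂ) = (m : ℂ) := by push_cast; rfl
  rw [hmc] at e1 e2
  have hS : ∀ T, (∑' x, CX.eterm (fun p : Nat.Primes => ((p : ℕ) : ℝ)) (fun p k => τ (M.t p k))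
      (m : ℝ) γ T x) = S M m τ γ T := fun T => tsum_congr fun x => (term_eq M m τ γ T x).symm
  simp only [hS] at e3
  obtain ⟨e4, e5⟩ := Run7.h453.CX.limit_of' (r := r) (c := Complex.exp r)
    (Λ := Pool.Agent.W187.UR.Lam γ) rfl e3
  refine ⟨ρ, r, e1, e2, ?_, ?_⟩
  · have h4 := e4.neg_left
    refine h4.congr_left fun T => ?_
    show -(-S M m τ γ T - (ρ * (Real.log T - Pool.Agent.W187.UR.Lam γ) - r)) =
      S M m τ γ T - (-ρ * (Real.log T - Pool.Agent.W187.UR.Lam γ) + r)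
    ring
  · have h4 := e5.inv₀ (div_ne_zero (Complex.exp_ne_zero _) (Complex.exp_ne_zero _))
    have h5 : (Complex.exp (-(ρ * Pool.Agent.W187.UR.Lam γ)) / Complex.exp r)⁻¹ =
        Complex.exp (ρ * Lam γ) * Complex.exp r := by
      show _ = Complex.exp (ρ * Pool.Agent.W187.UR.Lam γ) * Complex.exp r
      rw [Complex.exp_neg, inv_div, div_inv_eq_mul, mul_comm]
    rw [h5] at h4
    refine h4.congr fun T => ?_
    rw [inv_div, Complex.exp_neg, div_inv_eq_mul, mul_comm]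

/-- the limits -/
lemma limits {M : System E} {m : ℤ} {τ : E →+* ℂ} {L : ℂ → ℂ} (hL : IsLFunction M m τ L) {γ : ℝ}
    (hγ : Real.pi / 2 < γ) {l : Filter ℝ} (hl : l ≤ atTop) [l.NeBot] (c : ℂ) :
    Tendsto L (𝓝[≠] (m : ℂ)) (𝓝 c) ↔
      Tendsto (fun T : ℝ => Complex.exp (S M m τ γ T)) l (𝓝 c) := by
  obtain ⟨ρ, r, h1, h2, -, h3⟩ := law hL hγ
  have hmer : MeromorphicAt L (m : ℂ) := by
    by_contra hcon
    have h4 := meromorphicTrailingCoeffAt_of_not_MeromorphicAt hcon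
    rw [h4] at h2
    exact Complex.exp_ne_zero _ h2
  have h3' := h3.mono_left hl
  have hTpos : ∀ᶠ T : ℝ in l, 0 < T := hl (eventually_gt_atTop 0)
  have hTtop : Tendsto (fun T : ℝ => T) l atTop := hl
  -- powers of `T`
  have hneg : ∀ k : ℤ, k < 0 → Tendsto (fun T : ℝ => (T : ℂ) ^ k) l (𝓝 0) := by
    intro k hk
    rw [tendsto_zero_iff_norm_tendsto_zero]
    have h4 : Tendsto (fun T : ℝ => T ^ k) l (𝓝 0) := (tendsto_zpow_atTop_zero hk).mono_left hl
    refine h4.congr' ?_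
    filter_upwards [hTpos] with T hT
    rw [norm_zpow, Complex.norm_real, Real.norm_eq_abs, abs_of_pos hT]
  rcases lt_trichotomy ρ 0 with hρ | hρ | hρ
  · constructor
    · intro h
      exfalso
      have h4 := (tendsto_nhds_iff_meromorphicOrderAt_nonneg hmer).1 ⟨c, h⟩
      rw [h1] at h4
      exact absurd (by exact_mod_cast h4 : (0 : ℤ) ≤ ρ) (not_le.2 hρ)
    · intro h
      exfalso
      have h4 := h.mul (hneg ρ hρ)
      rw [mul_zero] at h4
      have h5 := tendsto_nhds_unique h4 h3'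
      exact mul_ne_zero (Complex.exp_ne_zero _) (Complex.exp_ne_zero _) h5.symm
  · subst hρ
    simp only [zpow_zero, mul_one, Int.cast_zero, zero_mul, Complex.exp_zero, one_mul] at h3'
    have h4 := hmer.tendsto_nhds_meromorphicTrailingCoeffAt
    rw [h1, ← h2] at h4
    simp only [WithTop.untop₀_coe, neg_zero, zpow_zero, smul_eq_mul, one_mul] at h4
    have h5 : Tendsto L (𝓝[≠] (m : ℂ)) (𝓝 (Complex.exp r)) := by
      refine h4.congr fun z => ?_
      simp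
    constructor
    · intro h
      rw [tendsto_nhds_unique h h5]
      exact h3'
    · intro h
      rw [tendsto_nhds_unique h h3']
      exact h5
  · have h4 : Tendsto L (𝓝[≠] (m : ℂ)) (𝓝 0) := by
      rw [tendsto_zero_iff_meromorphicOrderAt_pos hmer, h1]
      exact_mod_cast hρ
    have h5 : Tendsto (fun T : ℝ => Complex.exp (S M m τ γ T)) l (𝓝 0) := by
      have h6 := h3'.mul (hneg (-ρ) (by linarith))
      rw [mul_zero] at h6
      refine h6.congr' ?_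
      filter_upwards [hTpos] with T hT
      have hTc : (T : ℂ) ≠ 0 := by exact_mod_cast hT.ne'
      rw [mul_assoc, ← zpow_add₀ hTc]
      simp
    constructor
    · intro h
      rw [tendsto_nhds_unique h h4]
      exact h5
    · intro h
      rw [tendsto_nhds_unique h h5]
      exact h4

theorem result (E : Type) [Field E] [NumberField E] (M : System E) (m : ℤ)
    (L : (E →+* ℂ) → ℂ → ℂ) (hL : ∀ τ, IsLFunction M m τ (L τ)) (γ : ℝ)
    (hγ : Real.pi / 2 < γ) :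
    -- absolute convergence
    (∀ τ T, 0 < T → Summable fun x => ‖term M m τ γ T x‖) ∧
    -- the law
    (∀ τ, ∃ (ρ : ℤ) (r : ℂ), meromorphicOrderAt (L τ) m = ρ ∧
      Complex.exp r = meromorphicTrailingCoeffAt (L τ) m ∧
      (fun T : ℝ => S M m τ γ T - (-ρ * (Real.log T - Lam γ) + r)) =O[atTop]
        (fun T : ℝ => 1 / T)) ∧
    ∀ l : Filter ℝ, l ≤ atTop → l.NeBot →
      -- the smoothed Euler products
      (∀ τ (c : ℂ), Tendsto (L τ) (𝓝[≠] (m : ℂ)) (𝓝 c) ↔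
        Tendsto (fun T : ℝ => Complex.exp (S M m τ γ T)) l (𝓝 c)) ∧
      -- Deligne's relation
      ∀ c : (E →+* ℂ) → ℂ, (∀ τ, c τ ≠ 0) →
        (∀ e : E, (∀ τ, Tendsto (L τ) (𝓝[≠] (m : ℂ)) (𝓝 (τ e * c τ))) ↔
          ∀ τ, Tendsto (fun T : ℝ => Complex.exp (S M m τ γ T)) l (𝓝 (τ e * c τ))) ∧
        ∀ (ι : Type) [Fintype ι] [DecidableEq ι] (b : Module.Basis ι ℚ E),
          ((∃ e : E, ∀ τ, Tendsto (L τ) (𝓝[≠] (m : ℂ)) (𝓝 (τ e * c τ))) ↔
            ∀ i, ∃ q : ℚ, Tendsto (fun T : ℝ => ∑ τ : E →+* ℂ,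
              τ (b.traceDual i) * (Complex.exp (S M m τ γ T) / c τ)) l (𝓝 (q : ℂ))) := by
  refine ⟨fun τ T hT => ?_, fun τ => ?_, fun l hl hl' => ⟨fun τ c => limits (hL τ) hγ hl c,
    fun c hc => ⟨fun e => forall_congr' fun τ => limits (hL τ) hγ hl _,
      fun ι _ _ b => ?_⟩⟩⟩
  · obtain ⟨⟨α, h1, -⟩, -⟩ := hL τ
    refine ((ed h1).eterm_summable (m : ℝ) γ hT).congr fun x => ?_
    rw [term_eq]
  · obtain ⟨ρ, r, h1, h2, h3, -⟩ := law (hL τ) hγ
    exact ⟨ρ, r, h1, h2, h3⟩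
  · rw [← Run7.h453.DE.limit_iff b (fun τ T => Complex.exp (S M m τ γ T) / c τ) l]
    refine exists_congr fun e => forall_congr' fun τ => ?_
    rw [limits (hL τ) hγ hl]
    constructor
    · intro h
      have h1 := h.div_const (c τ)
      rwa [mul_div_assoc, div_self (hc τ), mul_one] at h1
    · intro h
      have h1 := h.mul_const (c τ)
      refine h1.congr fun T => ?_
      exact div_mul_cancel₀ _ (hc τ)

end Pool.Agent.Results.MP_100fe7_nt.RationalLimits
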