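import Pool.Agent.Run7.h184.TC.Fin
import Pool.Agent.Run7.h184.TC.Hol

/-!
# Deligne's relation for a motive over all number fields follows from the totally complex fields

`M` is a motive over a number field `K` (for the problem: `K = ℚ`) with coefficients in a number field
`E`, given by its Frobenius matrices outside a set of bad places; for a finite extension `F` of `K` the
motive `M/F` (over `ℚ`: `M ⊗ h(Spec F)`) has the `L`-functions `L_τ(M/F, s)`, `τ : E → ℂ`.  `m` is an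
integer, `U` a connected set that contains `m` and the half plane of absolute convergence (for instance
this half plane, if it contains `m`).  `x ∼ y` means `x ^ k = e y ^ k` in `(E ⊗ ℂ)^*` for some `k > 0` and
`e ∈ E^*`.  The RELATION `L(M/F, m) ∼ y` says that a power of `L(M/F, s)` has a meromorphic continuation
to `U`, holomorphic at `m` with a value `∼` this power of `y`.

For `M` over `ℚ`, critical at `m`, put `D = (2πi)^{m n^ε} c^ε(M)` (so Deligne's conjecture for `M` is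
`L(M, m) ∼ D`) and `Q = (2πi)^{m (n⁺ + n⁻)} c⁺(M) c⁻(M)`; Deligne's conjecture for `M ⊗ h(F)` is, up to
powers (the square root of the discriminant of `F` is a torsion element here),
`L(M/F, m) ∼ D^{r₁(F)} Q^{r₂(F)}`.

We prove, with arbitrary `D, Q ∈ (E ⊗ ℂ)^*`:

3. `L(M/F, m) ∼ D^{r₁} Q^{r₂}` for ALL number fields `F` if and only if this holds for ONE field with a
   real embedding (for instance `F = ℚ`) and for the TOTALLY COMPLEX fields `F` of cyclic type, i.e. such
   that `N/F` is cyclic for a Galois extension `N/ℚ` containing `F`.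

Over any `K`, assume only that `L(M/F, m) ∼ P^{[F:K]}` for the totally complex fields `F` of cyclic type
over `K`, with one `P ∈ (E ⊗ ℂ)^*` (nothing is assumed about real places).  Then:

1. there are PERIODS `δ_v ∈ (E ⊗ ℂ)^*` and rational numbers `ν_{v,τ}` for the real places `v` of `K` such
   that, for every finite extension `F` of `K` for which (a power of) `L(M/F, s)` has a continuation, its
   leading coefficient at `m` is `∼ P^{[F:K]} ∏_v δ_v^{r_v(F)}`, and its order is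
   `∑_v r_v(F) ν_{v,τ}`, where `r_v(F)` is the number of the real embeddings of `F` above `v`;
2. if, for given `δ_v`, the relation with `P^{[F:K]} ∏_v δ_v^{r_v(F)}` holds for finitely many `F_i` whose
   vectors `(r_v(F_i))_v` span `ℚ^{v}`, then it holds (with the continuation) for all `F`.

Part 0 says that leading terms are unique, and that in the half plane of absolute convergence everything
is unconditional: the Euler products converge to holomorphic functions without zeros, and the relation is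
`L_τ(M/F, m) ^ k = τ(e) y_τ ^ k`.

The proof.  Let `V` be the group of the families of functions, modulo those with a value in `E^*` at `m`,
tensored with `ℚ`.  By Artin formalism (with finitely many Euler factors, whose values are in `E^*`) the
class of `L(M/F, s)` in `V` depends additively on the permutation character of `Gal(N/K)` on
`Gal(N/K)/Gal(N/F)`.  Modulo the characters of `G/H`, `H` cyclic without complex conjugations, a multiple
of a combination `f` of such characters vanishes as soon as `f` vanishes at the complex conjugations,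
after adjoining to `N` square roots of suitable elements (`TC/Rel`).
-/

set_option autoImplicit false

namespace Pool.Agent.Results.MP_100fe7_nt.TotallyComplexFieldsSuffice

open NumberField IsDedekindDomain
open scoped Classical

/-- `F` is totally complex, and there is a finite Galois extension `N` of `K`, containing `F`, such that
`N / F` is cyclic. -/
def CyclicType (K F : Type) [Field K] [Field F] [Algebra K F] : Prop :=
  IsEmpty (F →+* ℝ) ∧ ∃ (N : Type) (_ : Field N) (_ : NumberField N) (_ : Algebra K N)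
    (_ : Algebra F N) (_ : IsScalarTower K F N), IsGalois K N ∧ IsCyclic Gal(N/F)

/-- The number `r_v(F)` of the embeddings of `F` in `ℝ` that extend `v : K → ℝ`. -/
noncomputable def realAbove {K : Type} [Field K] (F : Type) [Field F] [Algebra K F]
    (v : K →+* ℝ) : ℕ :=
  Nat.card {ρ : F →+* ℝ // ρ.comp (algebraMap K F) = v}

/-- The Frobenius data of a motive `M` over `K` with coefficients in `E`, of rank `d`: for a prime ideal
`p` of `K` outside the set `bad`, a matrix `frob p` over `E` whose characteristic polynomial is the one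
of the geometric Frobenius at `p` on `M_λ` (for instance its companion matrix). -/
structure Frobenii (K E : Type) [Field K] [NumberField K] [Field E] (d : ℕ) where
  bad : Set (Ideal (𝓞 K))
  frob : Ideal (𝓞 K) → Matrix (Fin d) (Fin d) E

section
variable {K E : Type} [Field K] [NumberField K] [Field E] {d : ℕ} (X : Frobenii K E d)

/-- The Euler factor of `L(M/F, s)` at a prime `w` of `F` for an embedding `τ : E → ℂ`: if the prime
`p` of `K` below `w` is not in `bad`, it is `det(1 - Nw^{-s} τ(frob p)^f)⁻¹`, where `Nw = Np^f` (so `f`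
is the residue degree, and `(frob p)^f` is the Frobenius at `w`). -/
noncomputable def factor (F : Type) [Field F] [NumberField F] [Algebra K F] (τ : E →+* ℂ) (s : ℂ)
    (w : HeightOneSpectrum (𝓞 F)) : ℂ :=
  if w.asIdeal.comap (algebraMap (𝓞 K) (𝓞 F)) ∈ X.bad then 1 else
    (1 - ((Ideal.absNorm w.asIdeal : ℂ) ^ (-s)) •
      ((X.frob (w.asIdeal.comap (algebraMap (𝓞 K) (𝓞 F)))).map τ) ^
        Nat.log (Ideal.absNorm (w.asIdeal.comap (algebraMap (𝓞 K) (𝓞 F))))
          (Ideal.absNorm w.asIdeal)).det⁻¹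

/-- The eigenvalues of the Frobenius at `p` have absolute value at most `Np^{b-1}` (so the Euler products
converge for `Re s > b`; if `M` is pure of weight `w`, then `b = w / 2 + 1`). -/
def Bounded (b : ℝ) : Prop :=
  ∀ p : Ideal (𝓞 K), p.IsPrime → p ≠ ⊥ → p ∉ X.bad → ∀ τ : E →+* ℂ,
    ∀ α ∈ ((X.frob p).map τ).charpoly.roots, ‖α‖ ≤ (Ideal.absNorm p : ℝ) ^ (b - 1)

/-- The local factors have no pole at `s = m` (true if `m > b`, see part 0 of the theorem, and for all
`m ≠ w / 2` if `M` is pure of weight `w`). -/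
def NoPole (m : ℤ) : Prop :=
  ∀ p : Ideal (𝓞 K), p.IsPrime → p ≠ ⊥ → p ∉ X.bad → ∀ f : ℕ, f ≠ 0 →
    (1 - (((Ideal.absNorm p ^ f : ℕ) : E) ^ (-m)) • (X.frob p) ^ f).det ≠ 0

/-- `U` is connected and contains `Re s > b` and `m`. -/
def Region (b : ℝ) (U : Set ℂ) (m : ℤ) : Prop :=
  IsPreconnected U ∧ (∀ s : ℂ, b < s.re → s ∈ U) ∧ (m : ℂ) ∈ U

/-- The function `L_τ(M/F, s) ^ k` (an Euler product for `Re s > b`) has a meromorphic continuation to
`U`, with leading term `x (s - m) ^ n` at `s = m`. -/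
def Continues (b : ℝ) (U : Set ℂ) (m : ℤ) (F : Type) [Field F] [NumberField F] [Algebra K F]
    (τ : E →+* ℂ) (k : ℕ) (n : ℤ) (x : ℂ) : Prop :=
  ∃ Λ : ℂ → ℂ, MeromorphicOn Λ U ∧
    (∀ s : ℂ, b < s.re → ∃ L : ℂ, HasProd (factor X F τ s) L ∧ Λ s = L ^ k) ∧
    meromorphicOrderAt Λ m = n ∧ meromorphicTrailingCoeffAt Λ m = x

/-- Deligne's relation `L(M/F, m) ∼ y`, up to powers: for some `k > 0` and `e ∈ E^*` the functions
`L_τ(M/F, s) ^ k` have meromorphic continuations to `U` which are holomorphic at `m` and take there the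
nonzero values `τ(e) y_τ ^ k`, for all embeddings `τ : E → ℂ`. -/
def Relation (b : ℝ) (U : Set ℂ) (m : ℤ) (F : Type) [Field F] [NumberField F] [Algebra K F]
    (y : (E →+* ℂ) → ℂ) : Prop :=
  ∃ (k : ℕ) (e : E), k ≠ 0 ∧ e ≠ 0 ∧ ∀ τ : E →+* ℂ, Continues X b U m F τ k 0 (τ e * y τ ^ k)

end

section proof

open Pool.Agent.Run7.h184.TC Pool.Agent.R433.MD Pool.Agent.R333.BR
open Pool.Agent.H921R2.TatePole (nm two_le_nm nm_summable)

section
variable {K E : Type} [Field K] [NumberField K] [Field E] {d : ℕ} (X : Frobenii K E d)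

/-- the bad places -/
def bd : Set (HeightOneSpectrum (𝓞 K)) := {v | v.asIdeal ∈ X.bad}

/-- the matrices -/
def fr : HeightOneSpectrum (𝓞 K) → Matrix (Fin d) (Fin d) E := fun v => X.frob v.asIdeal

variable {X} {b : ℝ}

theorem bd_of (h : Bounded X b) : Bd (bd X) (fr X) b := fun v hv τ α hα =>
  h v.asIdeal v.isPrime v.ne_bot hv τ α hα

theorem np_of {m : ℤ} (h : NoPole X m) : ∀ v ∉ bd X, ∀ n ≠ 0,
    (1 - (((nm v ^ n : ℕ) : E) ^ (-m)) • (fr X v) ^ n).det ≠ 0 := fun v hv n hn =>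
  h v.asIdeal v.isPrime v.ne_bot hv n hn

theorem factor_eq (F : Ext K) (τ : E →+* ℂ) (s : ℂ) (w : HeightOneSpectrum (𝓞 F.F)) :
    factor X F.F τ s w = loc (K := K) (fun v n => (pol (bd X) (fr X) τ v n s)⁻¹) w := by
  have h1 : nm w = nm (und (K := K) w) ^ fdeg (⟨w, rfl⟩ : Fib F.F (und (K := K) w)) :=
    nm_fib (K := K) ⟨w, rfl⟩
  have h2 : Nat.log (nm (und (K := K) w)) (nm w) =
      fdeg (⟨w, rfl⟩ : Fib F.F (und (K := K) w)) := by
    rw [h1]
    have := two_le_nm (und (K := K) w)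
    exact Nat.log_pow (by omega) _
  have h3 : factor X F.F τ s w = if und (K := K) w ∈ bd X then 1 else
    (1 - (((nm w : ℕ) : ℂ) ^ (-s)) • ((fr X (und (K := K) w)).map τ) ^
        Nat.log (nm (und (K := K) w)) (nm w)).det⁻¹ := rfl
  rw [h3, h2, loc, pol, ← h1]
  split_ifs with h
  · rw [inv_one]
  · rfl

variable {U : Set ℂ} {m : ℤ}

theorem cont_iff (hX : Bounded X b) (hm : (m : ℂ) ∈ U) (F : Ext K) (τ : E →+* ℂ) (k : ℕ) (n : ℤ)
    (x : ℂ) : Continues X b U m F.F τ k n x ↔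
      ∃ u : ℂˣ, (u : ℂ) = x ∧ Ld U m ((LF (bd_of hX) F τ) ^ k) u n := by
  have hL : ∀ s : HP b, HasProd (factor X F.F τ s) ((LF (bd_of hX) F τ s : ℂˣ) : ℂ) := fun s =>
    (LF_hasProd (bd_of hX) F τ s).congr_fun fun w => factor_eq F τ s w
  constructor
  · rintro ⟨Λ, h1, h2, h3, h4⟩
    have hx : x ≠ 0 := by
      rw [← h4]
      refine (h1 _ hm).meromorphicTrailingCoeffAt_ne_zero ?_
      rw [h3]
      exact WithTop.coe_ne_top
    refine ⟨Units.mk0 x hx, rfl, Λ, h1, fun s => ?_, h3, h4⟩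
    obtain ⟨L, h5, h6⟩ := h2 s s.2
    rw [h6, h5.unique (hL s), Pi.pow_apply, Units.val_pow_eq_pow_val]
  · rintro ⟨u, rfl, Λ, h1, h2, h3, h4⟩
    refine ⟨Λ, h1, fun s hs => ⟨_, hL ⟨s, hs⟩, ?_⟩, h3, h4⟩
    rw [h2 ⟨s, hs⟩, Pi.pow_apply, Units.val_pow_eq_pow_val]

theorem rel_iff' (hX : Bounded X b) (hm : (m : ℂ) ∈ U) (F : Ext K) (y : AA E) :
    Relation X b U m F.F (fun τ => (y τ : ℂ)) ↔
      cl (M0 E b hm) (LF (bd_of hX) F) = cl (M0 E b hm) (cst E b y) := by
  rw [rel_iff]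
  constructor
  · rintro ⟨k, e, hk, he, h⟩
    refine ⟨k, Units.mk0 e he, hk, fun τ => ?_⟩
    obtain ⟨u, hu, h1⟩ := (cont_iff hX hm F τ k 0 _).1 (h τ)
    have h2 : u = (em E (Units.mk0 e he) * y ^ k) τ := Units.ext hu
    rw [h2] at h1
    exact h1
  · rintro ⟨k, e, hk, h⟩
    refine ⟨k, e, hk, e.ne_zero, fun τ => ?_⟩
    exact (cont_iff hX hm F τ k 0 _).2 ⟨(em E e * y ^ k) τ, rfl, h τ⟩

end

section
variable {K E : Type} [Field K] [NumberField K] [Field E] {d : ℕ} {X : Frobenii K E d} {b : ℝ}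
  {U : Set ℂ} {m : ℤ}

theorem hyp_of (hX : Bounded X b) (hm : (m : ℂ) ∈ U) (P : AA E)
    (h : ∀ (F : Type) [Field F] [NumberField F] [Algebra K F], CyclicType K F →
      Relation X b U m F (fun τ => (P τ : ℂ) ^ Module.finrank K F)) : Hyp (bd_of hX) hm P := by
  intro Z hZ
  have h1 := h Z.F ⟨hZ.complex, hZ.cyclic⟩
  have h2 : (fun τ => (P τ : ℂ) ^ Module.finrank K Z.F) =
      fun τ => ((P ^ Module.finrank K Z.F) τ : ℂ) := by
    funext τ
    rw [Pi.pow_apply, Units.val_pow_eq_pow_val]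
  rw [h2, rel_iff' hX hm] at h1
  rw [h1, map_pow, cl_pow, natCast_zsmul]

theorem leading_of (hX : Bounded X b) (hX' : NoPole X m) (hU : Region b U m) (P : AA E)
    (h : ∀ (F : Type) [Field F] [NumberField F] [Algebra K F], CyclicType K F →
      Relation X b U m F (fun τ => (P τ : ℂ) ^ Module.finrank K F)) :
    ∃ (δ : (K →+* ℝ) → (E →+* ℂ) → ℂ) (ν : (K →+* ℝ) → (E →+* ℂ) → ℚ),
      (∀ v τ, δ v τ ≠ 0) ∧
      ∀ (F : Type) [Field F] [NumberField F] [Algebra K F] (k : ℕ) (n : (E →+* ℂ) → ℤ)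
        (x : (E →+* ℂ) → ℂ), k ≠ 0 → (∀ τ, Continues X b U m F τ k (n τ) (x τ)) →
        (∀ τ, (n τ : ℚ) / k = ∑ v : K →+* ℝ, (realAbove F v : ℚ) * ν v τ) ∧
        ∃ (j : ℕ) (e : E), j ≠ 0 ∧ e ≠ 0 ∧ ∀ τ, x τ ^ j =
          τ e * ((P τ : ℂ) ^ Module.finrank K F * ∏ v : K →+* ℝ, δ v τ ^ realAbove F v) ^ (k * j) := by
  obtain ⟨δ, ν, hδ⟩ := leading (bd_of hX) hU.2.2 hU.1 hU.2.1 (np_of hX') (hyp_of hX hU.2.2 P h)
  refine ⟨fun v τ => (δ v τ : ℂ), ν, fun v τ => Units.ne_zero _, fun F _ _ _ k n x hk hx => ?_⟩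
  choose u hu hL using fun τ => (cont_iff hX hU.2.2 ⟨F⟩ τ k (n τ) (x τ)).1 (hx τ)
  obtain ⟨h1, h2⟩ := hδ ⟨F⟩ k u (fun τ => Multiplicative.ofAdd (n τ)) hk hL
  refine ⟨h1, ?_⟩
  obtain ⟨j, hj, e, he⟩ := (cl_eq _).1 h2
  refine ⟨j, e, hj, e.ne_zero, fun τ => ?_⟩
  have h3 : em E e * ((P ^ Module.finrank K F * ∏ v : K →+* ℝ, δ v ^ rr F v) ^ k) ^ j = u ^ j := by
    rw [he, inv_mul_cancel_right]
  have h4 := congrArg (fun z : AA E => (z τ : ℂ)) h3
  simp only [Pi.mul_apply, Pi.pow_apply, Finset.prod_apply, Units.val_mul,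
    Units.val_pow_eq_pow_val, Units.coe_prod, hu] at h4
  rw [← h4, pow_mul]
  rfl

theorem all_of (hX : Bounded X b) (hX' : NoPole X m) (hU : Region b U m) (P : AA E)
    (h : ∀ (F : Type) [Field F] [NumberField F] [Algebra K F], CyclicType K F →
      Relation X b U m F (fun τ => (P τ : ℂ) ^ Module.finrank K F))
    (δ : (K →+* ℝ) → AA E) (t : ℕ) (F : Fin t → Type) [∀ i, Field (F i)] [∀ i, NumberField (F i)]
    [∀ i, Algebra K (F i)]
    (hspan : Submodule.span ℚ (Set.range fun (i : Fin t) (v : K →+* ℝ) =>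
      (realAbove (F i) v : ℚ)) = ⊤)
    (hF : ∀ i, Relation X b U m (F i) fun τ => (P τ : ℂ) ^ Module.finrank K (F i) *
      ∏ v : K →+* ℝ, (δ v τ : ℂ) ^ realAbove (F i) v)
    (F' : Type) [Field F'] [NumberField F'] [Algebra K F'] :
    Relation X b U m F' fun τ => (P τ : ℂ) ^ Module.finrank K F' *
      ∏ v : K →+* ℝ, (δ v τ : ℂ) ^ realAbove F' v := by
  have h2 : ∀ G : Ext K, (fun τ => (P τ : ℂ) ^ Module.finrank K G.F *
      ∏ v : K →+* ℝ, (δ v τ : ℂ) ^ realAbove G.F v) =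
      fun τ => ((P ^ Module.finrank K G.F * ∏ v : K →+* ℝ, δ v ^ rr G.F v) τ : ℂ) := by
    intro G
    funext τ
    simp only [Pi.mul_apply, Pi.pow_apply, Finset.prod_apply, Units.val_mul,
      Units.val_pow_eq_pow_val, Units.coe_prod]
    rfl
  have h3 := all_fields (bd_of hX) hU.2.2 (np_of hX') (hyp_of hX hU.2.2 P h) δ
    (fun i => (⟨F i⟩ : Ext K)) hspan (fun i => by
      have h4 := hF i
      rw [h2 ⟨F i⟩] at h4
      exact (rel_iff' hX hU.2.2 ⟨F i⟩ _).1 h4) ⟨F'⟩
  have h5 := (rel_iff' hX hU.2.2 ⟨F'⟩ _).2 h3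
  rw [← h2 ⟨F'⟩] at h5
  exact h5

end

section rat

theorem realAbove_rat (F : Type) [Field F] [NumberField F] (v : ℚ →+* ℝ) :
    realAbove F v = Nat.card (F →+* ℝ) := by
  unfold realAbove
  exact Nat.card_congr (Equiv.subtypeUnivEquiv fun ρ => Subsingleton.elim _ _)

/-- the degree -/
theorem deg_eq (F : Type) [Field F] [NumberField F] :
    Module.finrank ℚ F = Nat.card (F →+* ℝ) + 2 * InfinitePlace.nrComplexPlaces F := by
  have h1 : Nat.card (F →+* ℝ) = InfinitePlace.nrRealPlaces F := by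
    have h2 := InfinitePlace.card_real_embeddings F
    rw [← h2, ← Nat.card_eq_fintype_card]
    refine Nat.card_eq_of_bijective (fun ρ => ⟨(Complex.ofRealHom).comp ρ, ?_⟩)
      ⟨fun ρ ρ' h => ?_, fun φ => ?_⟩
    · rw [ComplexEmbedding.isReal_iff]
      refine RingHom.ext fun x => ?_
      rw [ComplexEmbedding.conjugate_coe_eq]
      exact Complex.conj_ofReal _
    · refine RingHom.ext fun x => Complex.ofReal_injective ?_
      exact RingHom.congr_fun (congrArg Subtype.val h) x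
    · refine ⟨φ.2.embedding, Subtype.ext (RingHom.ext fun x => ?_)⟩
      exact φ.2.coe_embedding_apply x
  rw [h1]
  exact (InfinitePlace.card_add_two_mul_card_eq_rank F).symm

/-- the two forms of the periods -/
theorem form_eq {E : Type} [Field E] (F : Type) [Field F] [NumberField F] (P D Q : AA E)
    (hP : P ^ 2 = Q) : (fun τ => (P τ : ℂ) ^ Module.finrank ℚ F *
      ∏ v : ℚ →+* ℝ, ((D * P⁻¹ : AA E) τ : ℂ) ^ realAbove F v) =
    fun τ => (D τ : ℂ) ^ Nat.card (F →+* ℝ) * (Q τ : ℂ) ^ InfinitePlace.nrComplexPlaces F := by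
  funext τ
  rw [Fintype.prod_eq_single (Rat.castHom ℝ) fun v hv => absurd (Subsingleton.elim _ _) hv,
    realAbove_rat, deg_eq, ← hP]
  have h0 : (P τ : ℂ) ≠ 0 := Units.ne_zero _
  simp only [Pi.mul_apply, Pi.inv_apply, Pi.pow_apply, Units.val_mul, Units.val_inv_eq_inv_val,
    Units.val_pow_eq_pow_val]
  rw [pow_add, mul_pow, inv_pow, ← pow_mul]
  field_simp

theorem rat_iff {E : Type} [Field E] {d : ℕ} {X : Frobenii ℚ E d} {b : ℝ} {U : Set ℂ} {m : ℤ}
    (hX : Bounded X b) (hX' : NoPole X m) (hU : Region b U m) (D Q : AA E) :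
    (∀ (F : Type) [Field F] [NumberField F], Relation X b U m F fun τ =>
        (D τ : ℂ) ^ Nat.card (F →+* ℝ) * (Q τ : ℂ) ^ InfinitePlace.nrComplexPlaces F) ↔
      (∀ (F : Type) [Field F] [NumberField F], CyclicType ℚ F → Relation X b U m F fun τ =>
        (Q τ : ℂ) ^ InfinitePlace.nrComplexPlaces F) ∧
      ∃ (F₀ : Type) (_ : Field F₀) (_ : NumberField F₀), Nonempty (F₀ →+* ℝ) ∧
        Relation X b U m F₀ fun τ => (D τ : ℂ) ^ Nat.card (F₀ →+* ℝ) *
          (Q τ : ℂ) ^ InfinitePlace.nrComplexPlaces F₀ := by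
  constructor
  · intro h
    refine ⟨fun F _ _ hF => ?_, ℚ, inferInstance, inferInstance, ⟨Rat.castHom ℝ⟩, h ℚ⟩
    have h1 := h F
    have h2 : Nat.card (F →+* ℝ) = 0 := by
      have := hF.1
      exact Nat.card_of_isEmpty
    simp only [h2, pow_zero, one_mul] at h1
    exact h1
  · rintro ⟨h, F₀, _, _, hne, h0⟩ F _ _
    obtain ⟨P, hP⟩ := AA_div E Q 2 two_ne_zero
    have h1 : ∀ (F : Type) [Field F] [NumberField F] [Algebra ℚ F], CyclicType ℚ F →
        Relation X b U m F (fun τ => (P τ : ℂ) ^ Module.finrank ℚ F) := by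
      intro F _ _ alg hF
      obtain rfl : alg = DivisionRing.toRatAlgebra := Subsingleton.elim _ _
      have h2 : Nat.card (F →+* ℝ) = 0 := by
        have := hF.1
        exact Nat.card_of_isEmpty
      have h3 := h F hF
      have h4 : (fun τ => (P τ : ℂ) ^ Module.finrank ℚ F) =
          fun τ => (Q τ : ℂ) ^ InfinitePlace.nrComplexPlaces F := by
        funext τ
        rw [deg_eq, h2, zero_add, pow_mul, ← hP]
        rfl
      rw [h4]
      exact h3
    have h5 := all_of hX hX' hU P h1 (fun _ => D * P⁻¹) 1 (fun _ => F₀) (by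
      rw [eq_top_iff]
      rintro y -
      have h6 : (Nat.card (F₀ →+* ℝ) : ℚ) ≠ 0 := Nat.cast_ne_zero.2 (by
        have : Nonempty (F₀ →+* ℝ) := hne
        exact Nat.card_pos.ne')
      have h2 : y = (y (Rat.castHom ℝ) / (Nat.card (F₀ →+* ℝ) : ℚ)) •
          (fun v : ℚ →+* ℝ => (realAbove F₀ v : ℚ)) := by
        funext v
        rw [Pi.smul_apply, smul_eq_mul, realAbove_rat, Subsingleton.elim v (Rat.castHom ℝ)]
        field_simp
      rw [h2]
      exact Submodule.smul_mem _ _ (Submodule.subset_span ⟨0, rfl⟩)) (fun _ => by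
      rw [form_eq F₀ P D Q hP]
      exact h0) F
    rw [form_eq F P D Q hP] at h5
    exact h5

end rat

section zero
variable {K E : Type} [Field K] [NumberField K] [Field E] {d : ℕ} {X : Frobenii K E d} {b : ℝ}
  {U : Set ℂ} {m : ℤ}

theorem ld_pow (hm : (m : ℂ) ∈ U) (g : HP b → ℂˣ) (u : ℂˣ) (n : ℤ) (hg : Ld U m g u n) (j : ℕ) :
    Ld U m (g ^ j) (u ^ j) (j * n) := by
  induction j with
  | zero =>
    rw [pow_zero, pow_zero, Nat.cast_zero, zero_mul]
    exact Ld.entire (h := fun _ => 1) (differentiable_const _) _ _ (fun s => by simp) (by simp)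
  | succ j ih =>
    rw [pow_succ, pow_succ]
    have h2 := ih.mul hm hg
    have h3 : (j : ℤ) * n + n = ((j + 1 : ℕ) : ℤ) * n := by push_cast; ring
    rw [h3] at h2
    exact h2

theorem unique_of (hX : Bounded X b) (hU : Region b U m) (F : Type) [Field F] [NumberField F]
    [Algebra K F] (τ : E →+* ℂ) (k k' : ℕ) (n n' : ℤ) (x x' : ℂ)
    (h : Continues X b U m F τ k n x) (h' : Continues X b U m F τ k' n' x') :
    x ≠ 0 ∧ (k' : ℤ) * n = k * n' ∧ x ^ k' = x' ^ k := by
  obtain ⟨u, rfl, h1⟩ := (cont_iff hX hU.2.2 ⟨F⟩ τ k n x).1 h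
  obtain ⟨u', rfl, h1'⟩ := (cont_iff hX hU.2.2 ⟨F⟩ τ k' n' x').1 h'
  have h2 := ld_pow hU.2.2 _ _ _ h1 k'
  have h2' := ld_pow hU.2.2 _ _ _ h1' k
  rw [← pow_mul] at h2 h2'
  rw [mul_comm k' k] at h2'
  obtain ⟨h3, h4⟩ := h2.unique hU.1 hU.2.1 hU.2.2 h2'
  refine ⟨u.ne_zero, h4, ?_⟩
  rw [← Units.val_pow_eq_pow_val, h3, Units.val_pow_eq_pow_val]

theorem noPole_of [NumberField E] (hX : Bounded X b) (hm : b < m) : NoPole X m := by
  intro p hp hp0 hpb f hf
  have hv : (⟨p, hp, hp0⟩ : HeightOneSpectrum (𝓞 K)) ∉ bd X := hpb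
  obtain ⟨τ⟩ : Nonempty (E →+* ℂ) := inferInstance
  have h1 := pol_ne_zero (bd_of hX) τ ⟨p, hp, hp0⟩ hf (s := (m : ℂ)) (by
    rw [Complex.intCast_re]
    exact hm)
  rw [pol_int] at h1
  intro h2
  apply h1
  rw [polE, if_neg hv]
  have h3 : (1 - (((nm (⟨p, hp, hp0⟩ : HeightOneSpectrum (𝓞 K)) ^ f : ℕ) : E) ^ (-m)) •
      (fr X ⟨p, hp, hp0⟩) ^ f).det = 0 := h2
  rw [h3, map_zero]

theorem half_of (hX : Bounded X b) (hm : b < m) (F : Type) [Field F] [NumberField F]
    [Algebra K F] (τ : E →+* ℂ) : ∃ L : ℂ, HasProd (factor X F τ m) L ∧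
      Continues X b {s : ℂ | b < s.re} m F τ 1 0 L := by
  have hm' : b < (m : ℂ).re := by
    rw [Complex.intCast_re]
    exact hm
  refine ⟨(LF (bd_of hX) ⟨F⟩ τ ⟨m, hm'⟩ : ℂˣ), ?_, ?_⟩
  · exact (LF_hasProd (bd_of hX) ⟨F⟩ τ ⟨m, hm'⟩).congr_fun fun w => factor_eq ⟨F⟩ τ m w
  · refine (cont_iff hX hm' ⟨F⟩ τ 1 0 _).2 ⟨_, rfl, ?_⟩
    rw [pow_one]
    exact ld_half (bd_of hX) ⟨F⟩ τ ⟨m, hm'⟩

theorem relation_half (hX : Bounded X b) (hm : b < m) (F : Type) [Field F] [NumberField F]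
    [Algebra K F] (y : (E →+* ℂ) → ℂ) : Relation X b {s : ℂ | b < s.re} m F y ↔
      ∃ (k : ℕ) (e : E), k ≠ 0 ∧ e ≠ 0 ∧ ∀ (τ : E →+* ℂ) (L : ℂ), HasProd (factor X F τ m) L →
        L ^ k = τ e * y τ ^ k := by
  have hm' : (m : ℂ) ∈ {s : ℂ | b < s.re} := by
    change b < (m : ℂ).re
    rw [Complex.intCast_re]
    exact hm
  have hU : Region b {s : ℂ | b < s.re} m :=
    ⟨(convex_halfSpace_re_gt b).isPreconnected, fun _ hs => hs, hm'⟩
  constructor
  · rintro ⟨k, e, hk, he, h⟩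
    refine ⟨k, e, hk, he, fun τ L hL => ?_⟩
    obtain ⟨L0, hL0, h0⟩ := half_of hX hm F τ
    have h1 := (unique_of hX hU F τ 1 k 0 0 _ _ h0 (h τ)).2.2
    rw [pow_one] at h1
    rw [hL.unique hL0, h1]
  · rintro ⟨k, e, hk, he, h⟩
    refine ⟨k, e, hk, he, fun τ => ?_⟩
    obtain ⟨L0, hL0, h0⟩ := half_of hX hm F τ
    obtain ⟨u, hu, h1⟩ := (cont_iff hX hm' ⟨F⟩ τ 1 0 L0).1 h0
    have h2 := ld_pow hm' _ _ _ h1 k
    rw [pow_one, mul_zero] at h2
    refine (cont_iff hX hm' ⟨F⟩ τ k 0 _).2 ⟨u ^ k, ?_, h2⟩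
    rw [Units.val_pow_eq_pow_val, hu, h τ L0 hL0]

theorem region_half (hm : b < m) : Region b {s : ℂ | b < s.re} m :=
  ⟨(convex_halfSpace_re_gt b).isPreconnected, fun _ hs => hs, by
    change b < (m : ℂ).re
    rw [Complex.intCast_re]
    exact hm⟩

end zero

end proof

/-- **Main theorem.** -/
theorem result :
    -- 0. the region of absolute convergence, and the uniqueness of the leading terms
    (∀ (K E : Type) [Field K] [NumberField K] [Field E] [NumberField E] (d : ℕ)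
      (X : Frobenii K E d) (b : ℝ), Bounded X b →
      (∀ m : ℤ, b < m → NoPole X m ∧ Region b {s : ℂ | b < s.re} m ∧
        ∀ (F : Type) [Field F] [NumberField F] [Algebra K F],
          (∀ τ : E →+* ℂ, ∃ L : ℂ, HasProd (factor X F τ m) L ∧
            Continues X b {s : ℂ | b < s.re} m F τ 1 0 L) ∧
          ∀ y : (E →+* ℂ) → ℂ, Relation X b {s : ℂ | b < s.re} m F y ↔
            ∃ (k : ℕ) (e : E), k ≠ 0 ∧ e ≠ 0 ∧ ∀ (τ : E →+* ℂ) (L : ℂ),
              HasProd (factor X F τ m) L → L ^ k = τ e * y τ ^ k) ∧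
      (∀ (U : Set ℂ) (m : ℤ), Region b U m →
        ∀ (F : Type) [Field F] [NumberField F] [Algebra K F] (τ : E →+* ℂ) (k k' : ℕ) (n n' : ℤ)
          (x x' : ℂ), Continues X b U m F τ k n x → Continues X b U m F τ k' n' x' →
          x ≠ 0 ∧ (k' : ℤ) * n = k * n' ∧ x ^ k' = x' ^ k)) ∧
    -- over any number field `K`, with coefficients in any number field `E`
    (∀ (K E : Type) [Field K] [NumberField K] [Field E] [NumberField E] (d : ℕ)
      (X : Frobenii K E d) (b : ℝ) (U : Set ℂ) (m : ℤ),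
      Bounded X b → NoPole X m → Region b U m →
      ∀ P : (E →+* ℂ) → ℂ, (∀ τ, P τ ≠ 0) →
      (∀ (F : Type) [Field F] [NumberField F] [Algebra K F], CyclicType K F →
        Relation X b U m F fun τ => P τ ^ Module.finrank K F) →
      -- 1. the periods of the real places
      (∃ (δ : (K →+* ℝ) → (E →+* ℂ) → ℂ) (ν : (K →+* ℝ) → (E →+* ℂ) → ℚ),
        (∀ v τ, δ v τ ≠ 0) ∧
        ∀ (F : Type) [Field F] [NumberField F] [Algebra K F] (k : ℕ) (n : (E →+* ℂ) → ℤ)
          (x : (E →+* ℂ) → ℂ), k ≠ 0 → (∀ τ, Continues X b U m F τ k (n τ) (x τ)) →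
          (∀ τ, (n τ : ℚ) / k = ∑ v : K →+* ℝ, (realAbove F v : ℚ) * ν v τ) ∧
          ∃ (j : ℕ) (e : E), j ≠ 0 ∧ e ≠ 0 ∧ ∀ τ, x τ ^ j =
            τ e * (P τ ^ Module.finrank K F * ∏ v : K →+* ℝ, δ v τ ^ realAbove F v) ^ (k * j)) ∧
      -- 2. the relation for finitely many fields implies the relation for all fields
      (∀ δ : (K →+* ℝ) → (E →+* ℂ) → ℂ, (∀ v τ, δ v τ ≠ 0) →
        ∀ (t : ℕ) (F : Fin t → Type) [∀ i, Field (F i)] [∀ i, NumberField (F i)]
          [∀ i, Algebra K (F i)],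
        Submodule.span ℚ (Set.range fun (i : Fin t) (v : K →+* ℝ) =>
          (realAbove (F i) v : ℚ)) = ⊤ →
        (∀ i, Relation X b U m (F i) fun τ => P τ ^ Module.finrank K (F i) *
          ∏ v : K →+* ℝ, δ v τ ^ realAbove (F i) v) →
        ∀ (F' : Type) [Field F'] [NumberField F'] [Algebra K F'],
          Relation X b U m F' fun τ => P τ ^ Module.finrank K F' *
            ∏ v : K →+* ℝ, δ v τ ^ realAbove F' v)) ∧
    -- 3. over `ℚ`: all number fields, the totally complex ones, and one real field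
    (∀ (E : Type) [Field E] [NumberField E] (d : ℕ) (X : Frobenii ℚ E d) (b : ℝ) (U : Set ℂ)
      (m : ℤ), Bounded X b → NoPole X m → Region b U m →
      ∀ D Q : (E →+* ℂ) → ℂ, (∀ τ, D τ ≠ 0) → (∀ τ, Q τ ≠ 0) →
      ((∀ (F : Type) [Field F] [NumberField F], Relation X b U m F fun τ =>
          D τ ^ Nat.card (F →+* ℝ) * Q τ ^ InfinitePlace.nrComplexPlaces F) ↔
        (∀ (F : Type) [Field F] [NumberField F], CyclicType ℚ F → Relation X b U m F fun τ =>
          Q τ ^ InfinitePlace.nrComplexPlaces F) ∧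
        ∃ (F₀ : Type) (_ : Field F₀) (_ : NumberField F₀), Nonempty (F₀ →+* ℝ) ∧
          Relation X b U m F₀ fun τ => D τ ^ Nat.card (F₀ →+* ℝ) *
            Q τ ^ InfinitePlace.nrComplexPlaces F₀)) := by
  refine ⟨fun K E _ _ _ _ d X b hX => ⟨fun m hm => ⟨noPole_of hX hm, region_half hm,
    fun F _ _ _ => ⟨fun τ => half_of hX hm F τ, fun y => relation_half hX hm F y⟩⟩, fun U m hU F _ _ _ τ k k' n n' x x' h h' =>
      unique_of hX hU F τ k k' n n' x x' h h'⟩,
    fun K E _ _ _ _ d X b U m hX hX' hU P hP h => ?_,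
    fun E _ _ d X b U m hX hX' hU D Q hD hQ => ?_⟩
  · refine ⟨leading_of hX hX' hU (fun τ => Units.mk0 (P τ) (hP τ)) h,
      fun δ hδ t F _ _ _ hspan hF F' _ _ _ => ?_⟩
    exact all_of hX hX' hU (fun τ => Units.mk0 (P τ) (hP τ)) h
      (fun v τ => Units.mk0 (δ v τ) (hδ v τ)) t F hspan hF F'
  · exact rat_iff hX hX' hU (fun τ => Units.mk0 (D τ) (hD τ)) (fun τ => Units.mk0 (Q τ) (hQ τ))

end Pool.Agent.Results.MP_100fe7_nt.TotallyComplexFieldsSuffice
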