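import Pool.Agent.Run7.h810.DW.Grp

namespace Pool.Agent.Results.MP_100fe7_nt.TwistsOverNumberFields

open NumberField Pool.Agent.Run7.h810.DF Pool.Agent.Run7.h810.DW

/-- Let `M` be a motive over a number field `F`, with coefficients in `C`, given by its Frobenius
traces `t p k`, let `w` be a monomial in the values of an L-function at finitely many points, and let
`𝒞` be a class of finite groups, for instance all groups, the solvable groups, or the 2-groups.

(1) There are periods `A`, `B σ` (`σ` an embedding of `F`) such that Deligne's relation with these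
periods holds for the values `w` of `L(s, M ⊗ ρ)`, for all Artin representations `ρ` of the Galois
extensions `N` of `F` with group in `𝒞`, if and only if the quotients of the values `w` of
`L(s, M_K ⊗ ψ)` and `L(s, M_K ⊗ ψ')` have the expected form for all characters `ψ`, `ψ'` of the same
signature of the fields `K` between `F` and `N`; here no periods occur.

(2) For given periods `A`, `B σ`, for instance Deligne's, the relation holds for all `ρ` if and only
if the relation for the quotients holds, and Deligne's relation holds for one character of `F` of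
every signature. -/
theorem result :
    (GrpClass (fun _ _ => True) ∧ GrpClass (fun G _ => Group.IsSolvable G) ∧
      GrpClass (fun G _ => IsPGroup 2 G)) ∧
    ∀ (F : Type) [Field F] [NumberField F] (C : Type) [Field C] (t : Ideal (𝓞 F) → ℕ → C)
      (w : ℂ →₀ ℤ) (r : ℤ) (b : ℝ) (𝒞 : (G : Type) → [Group G] → Prop), GrpClass 𝒞 →
      (Deligne w r t b (fun E => 𝒞 (Gal E)) ↔ Quo w r t b (fun E => 𝒞 (Gal E))) ∧
      ∀ (A : (C →+* ℂ) → ℂ) (B : (C →+* ℂ) → (F →+* ℂ) → ℂ),
        (∀ e, A e ≠ 0) → (∀ e σ, B e σ ≠ 0) →
        (DelAll w r t b A B (fun E => 𝒞 (Gal E)) ↔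
          Quo w r t b (fun E => 𝒞 (Gal E)) ∧ DelOne w r t b A B (fun E => 𝒞 (Gal E))) :=
  ⟨⟨grp_all, grp_solvable, grp_two⟩, fun F _ _ C _ t w r b 𝒞 h => bothA t w r b h⟩

end Pool.Agent.Results.MP_100fe7_nt.TwistsOverNumberFields
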